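import Pool.Agent.KT3.StmtsD

/-!
KT3, row LSA: the class `AD` is a closed invariant family of walls.
-/

set_option autoImplicit false

open Matrix Filter Topology

namespace Pool.Agent.KT3.H65

open Pool.Agent.PFS Pool.Agent.PFJ Pool.Agent.NBT Pool.Agent.KT3

theorem lsa (hADI : AdiStmt) (hADC : AdcStmt) : LsaStmt := by
  intro n C Γ d δ h3
  refine ⟨fun w hw => hw.wl, ?_, ?_, ?_, ?_⟩
  · intro w hw g hg s hs
    exact ((hADI n C Γ d h3 w hw.wl).2 δ hw).2.1 g hg s hs
  · intro w hw t
    have hr : ∀ i : Fin 3, 0 < (if i = 1 then Real.exp t else (1 : ℝ)) := by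
      intro i
      by_cases hi : i = 1
      · rw [if_pos hi]; exact Real.exp_pos t
      · rw [if_neg hi]; exact one_pos
    have h := ((hADI n C Γ d h3 w hw.wl).2 δ hw).1 _ hr
    have e : at1 w t = fun i => (if i = 1 then Real.exp t else (1 : ℝ)) • w i := by
      funext i
      unfold at1
      by_cases hi : i = 1
      · subst hi
        rw [Function.update_self, if_pos rfl]
      · rw [Function.update_of_ne hi, if_neg hi, one_smul]
    rw [e]
    exact h
  · intro w hw φ _ x hx _
    exact ((hADI n C Γ d h3 w hw.wl).2 δ hw).2.2 x hx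
  · intro x w hx hl hs
    exact hADC n C Γ d δ h3 x w hx hl hs

end Pool.Agent.KT3.H65
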