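import Pool.Agent.KT3.StmtsA
import Pool.Agent.Helper64_NBT.IBI
import Pool.Agent.Helper13_NBT.IBF

/-!
# KT3, row WII (helper65): invariance of walls
-/

set_option autoImplicit false

namespace Pool.Agent.KT3.H65

open Pool.Agent.PFS Pool.Agent.PFJ Pool.Agent.NBT Pool.Agent.KT3

theorem wii : WiiStmt := by
  intro n C Γ K I d hH w hw
  have hcc : CC C Γ := hH.toHK.toCC
  have hwc : ∀ i, w i ∈ closure C := fun i => hw.pes.1.cl i
  obtain ⟨e1, e2, -⟩ := Pool.Agent.PFS.H60.elm n C Γ hcc (Fin K) w hw.pes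
  obtain ⟨i1, i2, i3⟩ := Pool.Agent.NBT.H64.ibi n C Γ hcc K w hwc
  obtain ⟨b1, -⟩ := Pool.Agent.NBT.H13.ibf n C hcc.toPCone K w hw.pes.1
  obtain ⟨u1, -, -, u4⟩ := b1 I (BI C w I) hw.box
  refine ⟨?_, ?_, ?_⟩
  · intro r hr
    have h1 := i1 r hr I
    refine ⟨⟨e1 r hr, ?_, ?_⟩, h1⟩
    · rw [h1]
      exact hw.dim
    · rw [h1]
      exact u4 r hr
  · intro g hg s hs
    have h1 := i2 g hg s hs I
    refine ⟨⟨e2 g hg s hs, ?_, ?_⟩, h1⟩
    · rw [h1, (Pool.Agent.PFJ.H32.img n).1]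
      exact hw.dim
    · rw [h1]
      exact i3 g hg s hs I _ hw.box
  · intro z hz hzI
    have hzc : ∀ i, z i ∈ closure C := fun i => hz.pes.1.cl i
    obtain ⟨b2, -⟩ := Pool.Agent.NBT.H13.ibf n C hcc.toPCone K z hz.pes.1
    obtain ⟨v1, -, -, -⟩ := b2 I (BI C z I) hz.box
    have hle : BI C z I ≤ BI C w I := by
      intro v hv
      obtain ⟨M, hM, h1, h2⟩ := unt_two hcc.toPCone v1 hv
      have hfz : fS z I ∈ BI C w I := by
        unfold fS
        exact Submodule.sum_mem _ hzI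
      obtain ⟨M', hM', h3⟩ := u1.2.2 (fS z I) hfz
      have h4 : M • (M' • fS w I - fS z I) ∈ closure C := hcc.toPCone.cl_smul h3 hM.le
      refine fce hcc.toPCone hwc (M := M * M') ?_ ?_
      · have h5 : (M * M') • fS w I - v =
            M • (M' • fS w I - fS z I) + (M • fS z I - v) := by
          rw [smul_sub, smul_smul]
          abel
        rw [h5]
        exact hcc.toPCone.cl_add h4 h1
      · have h5 : (M * M') • fS w I + v =
            M • (M' • fS w I - fS z I) + (M • fS z I + v) := by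
          rw [smul_sub, smul_smul]
          abel
        rw [h5]
        exact hcc.toPCone.cl_add h4 h2
    exact Submodule.eq_of_le_of_finrank_eq hle (by rw [hz.dim, hw.dim])

end Pool.Agent.KT3.H65
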